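import Pool.Agent.H431.MT.Chain

/-!
# Points of bounded degree on a power of the line
-/

set_option autoImplicit false

namespace Pool.Agent.H431.MT

open NumberField IsDedekindDomain Height Pool.Agent.Q290.NF IntermediateField
open Pool.Agent.H431.OC

theorem adjoin_top {K M : Type} [Field K] [Field M] [Algebra K M] {n : ℕ} (P : Fin n → M) :
    ∃ (L : IntermediateField K M) (Q : Fin n → L), (∀ i, (Q i : M) = P i) ∧
      adjoin K (Set.range Q) = ⊤ := by
  refine ⟨adjoin K (Set.range P), fun i => ⟨P i, subset_adjoin K _ ⟨i, rfl⟩⟩, fun i => rfl, ?_⟩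
  apply IntermediateField.map_injective (adjoin K (Set.range P)).val
  rw [adjoin_map, ← AlgHom.fieldRange_eq_map, IntermediateField.fieldRange_val]
  congr 1
  ext y
  constructor
  · rintro ⟨-, ⟨i, rfl⟩, rfl⟩
    exact ⟨i, rfl⟩
  · rintro ⟨i, rfl⟩
    exact ⟨_, ⟨i, rfl⟩, rfl⟩

theorem w3_ge {M : Type} [Field M] [NumberField M] {t : M} {v : HeightOneSpectrum (𝓞 M)}
    (h : w3 t v ≠ 0) : 1 ≤ w3 t v := by
  have h1 := po_nonneg (ord v t)
  have h2 := po_nonneg (ord v (t - 1))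
  have h3 := po_nonneg (-ord v t)
  unfold w3 at h ⊢
  by_cases a1 : 0 < ord v t
  · rw [po_pos a1] at h1 ⊢
    linarith
  by_cases a2 : 0 < ord v (t - 1)
  · rw [po_pos a2] at h2 ⊢
    linarith
  by_cases a3 : 0 < -ord v t
  · rw [po_pos a3] at h3 ⊢
    linarith
  rw [po_nonpos (not_lt.1 a1), po_nonpos (not_lt.1 a2), po_nonpos (not_lt.1 a3)] at h
  exact absurd (by norm_num) h

theorem main (K : Type) [Field K] [NumberField K] (n B : ℕ) (hn : 1 ≤ n)
    (G : MvPolynomial (Fin n) K) (hG : G ≠ 0) (hb : ∀ a ∈ G.support, ∀ i, a i < 2 ^ B)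
    (c : ℝ) (hc : 1 < c * n) (T : ℝ) :
    ∃ (L : Type) (_ : Field L) (_ : NumberField L) (_ : Algebra K L) (P : Fin n → L),
      adjoin K (Set.range P) = ⊤ ∧ Module.finrank K L ≤ 2 ^ ((n - 1) * B) ∧
      (∀ i, P i ≠ 0 ∧ P i ≠ 1) ∧ MvPolynomial.aeval P G ≠ 0 ∧
      ∀ R : Finset (HeightOneSpectrum (𝓞 L)), (∀ v ∈ R, ∃ i, w3 (P i) v ≠ 0) →
        DD L + ∑ v ∈ R, ell v + Module.finrank K L * (T - DD K) <
          c * ∑ i, logHeight₁ (P i) := by
  classical
  have hl : 0 < Real.log 2 := Real.log_pos (by norm_num)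
  have hn0 : (0 : ℝ) < n := by exact_mod_cast hn
  have hc0 : 0 < c := by
    by_contra h
    have := mul_nonpos_of_nonpos_of_nonneg (not_lt.1 h) hn0.le
    linarith
  obtain ⟨J, hJ⟩ : ∃ J, J = (n - 1) * B := ⟨_, rfl⟩
  -- an embedding
  obtain ⟨φ⟩ : Nonempty (K →+* ℂ) := inferInstance
  have hGφ : MvPolynomial.map φ G ≠ 0 := by
    intro h
    exact hG (MvPolynomial.map_injective φ φ.injective (by rw [h, map_zero]))
  obtain ⟨z0, hz0, hev⟩ := eval_ne (b := 2 ^ B) (MvPolynomial.map φ G) hGφ (by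
    intro a ha i
    refine hb a ?_ i
    rw [MvPolynomial.mem_support_iff, MvPolynomial.coeff_map] at ha
    rw [MvPolynomial.mem_support_iff]
    intro h
    rw [h, map_zero] at ha
    exact ha rfl)
  obtain ⟨C, hC0, hC⟩ := ht_mu
  -- the choice of `m`
  obtain ⟨m1, hm1⟩ := exists_pow_lt_of_lt_one (pow_pos hz0 (2 ^ J)) (one_half_lt_one (α := ℝ))
  obtain ⟨m2, hm2⟩ := exists_nat_gt ((((2 + 6 * J) * Real.log 2 + |T|) +
    c * n * ((2 * J + 1) * C)) / ((c * n - 1) * (2 * Real.log 2)))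
  rw [div_lt_iff₀ (mul_pos (by linarith) (by linarith))] at hm2
  obtain ⟨m, hm⟩ : ∃ m, m = max 1 (max m1 m2) := ⟨_, rfl⟩
  have hm' : 1 ≤ m := by omega
  have hmm1 : m1 ≤ m := by omega
  have hmm2 : (m2 : ℝ) ≤ m := by exact_mod_cast (by omega : m2 ≤ m)
  have hr0 : (0 : ℝ) < (1 / 2) ^ m := by positivity
  have hr1 : ((1 : ℝ) / 2) ^ m < 1 := pow_lt_one₀ (by norm_num) (by norm_num) (by omega)
  have hrz : ((1 : ℝ) / 2) ^ m < z0 ^ (2 ^ J) :=
    (pow_le_pow_of_le_one (by norm_num) (by norm_num) hmm1).trans_lt hm1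
  obtain ⟨M, i1, i2, i3, σ, κ, hσ, hκ0, hrel, hemb, hdeg, hdisc⟩ :=
    tower K φ (((1 : K) / 2) ^ m) (((1 : ℝ) / 2) ^ m) hr0 hr1 (by
      rw [map_pow, map_div₀, map_one, map_ofNat]
      push_cast
      rfl) J
  have kpos := kap_pos hr0
  have klt := kap_lt hr0 hr1
  have k0 : ∀ j ≤ J, κ j ≠ 0 := by
    intro j hj h
    have h1 := hemb j hj
    rw [h, map_zero] at h1
    have h2 : kap (((1 : ℝ) / 2) ^ m) j = 0 := by exact_mod_cast h1.symm
    have := kpos j
    linarith
  have k1 : ∀ j ≤ J, κ j ≠ 1 := by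
    intro j hj h
    have h1 := hemb j hj
    rw [h, map_one] at h1
    have h2 : kap (((1 : ℝ) / 2) ^ m) j = 1 := by exact_mod_cast h1.symm
    have := klt j
    linarith
  have k2 : ∀ j ≤ J, κ j ≠ -1 := by
    intro j hj h
    have h1 := hemb j hj
    rw [h, map_neg, map_one] at h1
    have h2 : kap (((1 : ℝ) / 2) ^ m) j = -1 := by exact_mod_cast h1.symm
    have := kpos j
    linarith
  -- the point
  obtain ⟨e, he⟩ : ∃ e : Fin n → ℕ, e = fun i : Fin n => (n - 1 - (i : ℕ)) * B := ⟨_, rfl⟩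
  have heJ : ∀ i, e i ≤ J := by
    intro i
    rw [he, hJ]
    exact Nat.mul_le_mul_right B (Nat.sub_le _ _)
  obtain ⟨P', hP'⟩ : ∃ P' : Fin n → M, P' = fun i => 4 * κ (e i) / (1 + κ (e i)) ^ 2 := ⟨_, rfl⟩
  obtain ⟨y, hy⟩ : ∃ y : Fin n → ℝ, y = fun i => 4 * kap (((1 : ℝ) / 2) ^ m) (e i) /
    (1 + kap (((1 : ℝ) / 2) ^ m) (e i)) ^ 2 := ⟨_, rfl⟩
  have hσP : ∀ i, σ (P' i) = (y i : ℂ) := by
    intro i
    rw [hP', hy]
    show σ (4 * κ (e i) / (1 + κ (e i)) ^ 2) = _
    rw [map_div₀, map_mul, map_pow, map_add, map_one, map_ofNat, hemb _ (heJ i)]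
    push_cast
    rfl
  have hylt : ∀ i, 0 < y i ∧ y i < 1 := by
    intro i
    have h1 := kpos (e i)
    have h2 := klt (e i)
    rw [hy]
    refine ⟨by positivity, ?_⟩
    show 4 * kap (((1 : ℝ) / 2) ^ m) (e i) / (1 + kap (((1 : ℝ) / 2) ^ m) (e i)) ^ 2 < 1
    rw [div_lt_one (by positivity)]
    nlinarith
  have hP0 : ∀ i, P' i ≠ 0 := by
    intro i h
    have h1 := hσP i
    rw [h, map_zero] at h1
    have h2 : y i = 0 := by exact_mod_cast h1.symm
    have := (hylt i).1
    linarith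
  have hP1 : ∀ i, P' i ≠ 1 := by
    intro i h
    have h1 := hσP i
    rw [h, map_one] at h1
    have h2 : y i = 1 := by exact_mod_cast h1.symm
    have := (hylt i).2
    linarith
  -- the polynomial
  obtain ⟨z, hz⟩ : ∃ z : ℝ, z = (((1 : ℝ) / 2) ^ m) ^ ((1 / 2 : ℝ) ^ J) := ⟨_, rfl⟩
  have hzpos : 0 < z := by
    rw [hz]
    exact Real.rpow_pos_of_pos hr0 _
  have hzJ : z ^ (2 ^ J) = ((1 : ℝ) / 2) ^ m := by
    rw [hz, ← Real.rpow_natCast, ← Real.rpow_mul hr0.le]
    have : (1 / 2 : ℝ) ^ J * ((2 ^ J : ℕ) : ℝ) = 1 := by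
      push_cast
      rw [← mul_pow]
      norm_num
    rw [this, Real.rpow_one]
  have hzz0 : z < z0 := by
    by_contra h
    have := pow_le_pow_left₀ hz0.le (not_lt.1 h) (2 ^ J)
    rw [hzJ] at this
    linarith
  have hzi : ∀ i : Fin n, z ^ ((2 ^ B) ^ (i : ℕ)) =
      (((1 : ℝ) / 2) ^ m) ^ ((1 / 2 : ℝ) ^ (e i)) := by
    intro i
    have hi : (i : ℕ) ≤ n - 1 := by have := i.2; omega
    have hJe : J = e i + i * B := by
      rw [hJ, he]
      show (n - 1) * B = (n - 1 - (i : ℕ)) * B + i * B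
      rw [← Nat.add_mul]
      congr 1
      omega
    rw [hz, ← Real.rpow_natCast, ← Real.rpow_mul hr0.le, hJe, pow_add]
    congr 1
    push_cast
    rw [mul_assoc]
    have : (1 / 2 : ℝ) ^ ((i : ℕ) * B) * (2 ^ B) ^ (i : ℕ) = 1 := by
      rw [← pow_mul, mul_comm B, ← mul_pow]
      norm_num
    rw [this, mul_one]
  have hGy := hev z hzpos hzz0 y (by
    intro i
    have h1 := kap_ge hr0 hr1 (e i)
    have h2 := kap_le hr0 hr1 (e i)
    have h3 := kpos (e i)
    have h4 := klt (e i)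
    rw [hzi i]
    obtain ⟨Z, hZ⟩ : ∃ Z, Z = (((1 : ℝ) / 2) ^ m) ^ ((1 / 2 : ℝ) ^ (e i)) := ⟨_, rfl⟩
    obtain ⟨q, hq⟩ : ∃ q, q = kap (((1 : ℝ) / 2) ^ m) (e i) := ⟨_, rfl⟩
    rw [← hZ, ← hq] at h1 h2
    rw [← hq] at h3 h4
    rw [← hZ]
    have hyi : y i = 4 * q / (1 + q) ^ 2 := by
      rw [hy, hq]
    rw [hyi]
    constructor
    · rw [le_div_iff₀ (by positivity)]
      have : Z * (1 + q) ^ 2 ≤ q * 4 :=
        mul_le_mul h1 (by nlinarith) (by positivity) h3.le
      linarith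
    · rw [div_le_iff₀ (by positivity)]
      have h5 : 0 ≤ q * Z := by
        have : 0 ≤ Z := by
          rw [hZ]
          exact (Real.rpow_pos_of_pos hr0 _).le
        positivity
      have h6 : 0 ≤ q ^ 2 * Z := by
        have : 0 ≤ Z := by
          rw [hZ]
          exact (Real.rpow_pos_of_pos hr0 _).le
        positivity
      nlinarith)
  -- the field of definition
  obtain ⟨L, Q, hQ, hQtop⟩ := adjoin_top (K := K) P'
  have fKM : Module.Finite K M := inferInstance
  have nL : NumberField L := inferInstance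
  have hKL : Module.finrank K L * Module.finrank L M = Module.finrank K M :=
    Module.finrank_mul_finrank K L M
  have hLM0 : 0 < Module.finrank L M := Module.finrank_pos
  have hKL0 : 0 < Module.finrank K L := Module.finrank_pos
  have hK0 : 0 < Module.finrank ℚ K := Module.finrank_pos
  have halg : ∀ i, algebraMap L M (Q i) = P' i := hQ
  refine ⟨L, inferInstance, nL, inferInstance, Q, hQtop, ?_, ?_, ?_, ?_⟩
  · rw [← hJ]
    refine le_trans ?_ hdeg
    rw [← hKL]
    exact Nat.le_mul_of_pos_right _ hLM0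
  · intro i
    refine ⟨fun h => hP0 i ?_, fun h => hP1 i ?_⟩
    · rw [← halg, h, map_zero]
    · rw [← halg, h, map_one]
  · intro h
    apply hGy
    have h1 : σ (algebraMap L M (MvPolynomial.aeval Q G)) = 0 := by rw [h, map_zero, map_zero]
    rw [← h1, MvPolynomial.eval_map, MvPolynomial.aeval_def, MvPolynomial.hom_eval₂,
      MvPolynomial.hom_eval₂]
    congr 1
    · rw [← hσ]
      rfl
    · funext i
      show (y i : ℂ) = σ (algebraMap L M (Q i))
      rw [halg, hσP]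
  · intro R hR
    obtain ⟨g, hg⟩ : ∃ g : HeightOneSpectrum (𝓞 M) → ℝ, g = fun w => w3 (κ J ^ 2) w +
      max 0 (ord w ((2 : ℕ) : M) : ℝ) := ⟨_, rfl⟩
    have hgs : (Function.support g).Finite := by
      rw [hg]
      exact supp_add (supp_w3 _) (supp_zeros _)
    have hg0 : ∀ w, 0 ≤ g w := by
      intro w
      rw [hg]
      exact add_nonneg (w3_nonneg _ w) (le_max_left _ _)
    have d1 := descent R g hgs hg0 (by
      intro v hv w hw
      have hmax := v.isMaximal
      obtain ⟨i, hi⟩ := hR v hv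
      have hw1 := w3_ext v w (ram_ne v w hw) (fun z => by
        rw [ord_above v w hw]) (Q i)
      rw [halg] at hw1
      rw [hg]
      show 1 ≤ w3 (κ J ^ 2) w + max 0 (ord w ((2 : ℕ) : M) : ℝ)
      rw [← hw1] at hi
      by_cases h2 : ord w (2 : M) = 0
      · have h3 := w3_chain κ J hrel k0 k1 k2 w h2 (J - e i) (Nat.sub_le _ _)
        have h4 : J - (J - e i) = e i := Nat.sub_sub_self (heJ i)
        rw [h4] at h3
        have h5 : w3 (P' i) w = w3 (κ J ^ 2) w := by
          rw [hP']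
          exact h3
        have h6 := w3_ge hi
        rw [h5] at h6
        have h7 := le_max_left (0 : ℝ) (ord w ((2 : ℕ) : M) : ℝ)
        linarith
      · have h3 := nat_nonneg w 2
        have h4 : (1 : ℤ) ≤ ord w ((2 : ℕ) : M) := by
          have : ord w ((2 : ℕ) : M) ≠ 0 := by exact_mod_cast h2
          omega
        have h5 : (1 : ℝ) ≤ (ord w ((2 : ℕ) : M) : ℝ) := by exact_mod_cast h4
        have h6 := le_max_right (0 : ℝ) (ord w ((2 : ℕ) : M) : ℝ)
        have h7 := w3_nonneg (κ J ^ 2) w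
        linarith)
    have d2 : sm g = sm (w3 (κ J ^ 2)) +
        sm (fun w : HeightOneSpectrum (𝓞 M) => max 0 (ord w ((2 : ℕ) : M) : ℝ)) := by
      rw [hg]
      exact sm_add (supp_w3 _) (supp_zeros _)
    have d3 : sm (fun w : HeightOneSpectrum (𝓞 M) => max 0 (ord w ((2 : ℕ) : M) : ℝ)) ≤
        Module.finrank ℚ M * Real.log 2 := by
      have h1 := (zeros_le (K := M) ((2 : ℕ) : M)).trans (height_nat two_ne_zero)
      exact h1
    have d4 := sm_bottom K m hm'
    have d5 : ∀ i, 2 * logHeight₁ (κ 0) ≤ Module.finrank L M * logHeight₁ (Q i) +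
        Module.finrank ℚ M * ((2 * J + 1) * C) := by
      intro i
      have h1 := ht_chain' hC0 hC M κ J hrel k0 k2 (e i) (heJ i)
      have h2 : 4 * κ (e i) / (1 + κ (e i)) ^ 2 = P' i := by rw [hP']
      rw [h2, ← halg, ht_ext] at h1
      exact h1
    have d6 : logHeight₁ (κ 0) = m * (Module.finrank ℚ M * Real.log 2) := by
      rw [hκ0, map_pow, logHeight₁_pow, map_div₀, map_one, map_ofNat, one_div, logHeight₁_inv,
        height_two]
    rw [d6] at d5
    obtain ⟨k, hk⟩ : ∃ k : ℝ, k = Module.finrank ℚ K := ⟨_, rfl⟩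
    obtain ⟨p, hp⟩ : ∃ p : ℝ, p = Module.finrank K L := ⟨_, rfl⟩
    obtain ⟨q, hq⟩ : ∃ q : ℝ, q = Module.finrank L M := ⟨_, rfl⟩
    have hk1 : 1 ≤ k := by
      rw [hk]
      exact_mod_cast hK0
    have hp1 : 0 < p := by
      rw [hp]
      exact_mod_cast hKL0
    have hq1 : 0 < q := by
      rw [hq]
      exact_mod_cast hLM0
    have hKM : (Module.finrank K M : ℝ) = p * q := by
      rw [hp, hq, ← hKL]
      push_cast
      rfl
    have hQM : (Module.finrank ℚ M : ℝ) = k * (p * q) := by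
      rw [← hKM, hk]
      exact_mod_cast (Module.finrank_mul_finrank ℚ K M).symm
    rw [← hq, d2] at d1
    rw [hKM, ← hk] at hdisc
    rw [hQM] at d3
    rw [← hk] at d4
    have d7 : ∀ i, k * p * (2 * m * Real.log 2 - (2 * J + 1) * C) ≤ logHeight₁ (Q i) := by
      intro i
      have h1 := d5 i
      rw [← hq, hQM] at h1
      have h2 : q * (k * p * (2 * m * Real.log 2 - (2 * J + 1) * C)) ≤ q * logHeight₁ (Q i) := by
        linarith
      exact le_of_mul_le_mul_left h2 hq1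
    have d8 : (n : ℝ) * (k * p * (2 * m * Real.log 2 - (2 * J + 1) * C)) ≤
        ∑ i, logHeight₁ (Q i) := by
      have := Finset.sum_le_sum fun (i : Fin n) (_ : i ∈ Finset.univ) => d7 i
      rw [Finset.sum_const, Finset.card_univ, Fintype.card_fin, nsmul_eq_mul] at this
      exact this
    have d9 : DD L + ∑ v ∈ R, ell v ≤ p * DD K + k * p * ((2 * m + 2 + 6 * J) * Real.log 2) := by
      have h1 : q * (DD L + ∑ v ∈ R, ell v) ≤
          q * (p * DD K + k * p * ((2 * m + 2 + 6 * J) * Real.log 2)) := by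
        have h2 := mul_le_mul_of_nonneg_left d4 (mul_pos hp1 hq1).le
        linarith
      exact le_of_mul_le_mul_left h1 hq1
    have d10 : p * T ≤ k * p * |T| := by
      have h1 := le_abs_self T
      have h2 := abs_nonneg T
      have h3 : p * T ≤ p * |T| := mul_le_mul_of_nonneg_left h1 hp1.le
      have h4 : 1 * (p * |T|) ≤ k * (p * |T|) :=
        mul_le_mul_of_nonneg_right hk1 (mul_nonneg hp1.le h2)
      linarith
    have d11 : (2 + 6 * J) * Real.log 2 + |T| + c * n * ((2 * J + 1) * C) <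
        m * ((c * n - 1) * (2 * Real.log 2)) := by
      refine hm2.trans_le (mul_le_mul_of_nonneg_right hmm2 ?_)
      exact (mul_pos (by linarith) (by linarith)).le
    have d12 := mul_lt_mul_of_pos_left d11 (mul_pos (lt_of_lt_of_le one_pos hk1) hp1)
    have d13 := mul_le_mul_of_nonneg_left d8 hc0.le
    rw [← hp]
    linarith

end Pool.Agent.H431.MT
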