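import Mathlib

/-!
# Polynomials do not vanish at points with coordinates of very different size
-/

set_option autoImplicit false

namespace Pool.Agent.H431.MT

/-- the weight of a monomial -/
def wtm {n : ℕ} (b : ℕ) (a : Fin n →₀ ℕ) : ℕ := ∑ i : Fin n, a i * b ^ (i : ℕ)

theorem wtm_inj {n b : ℕ} {a a' : Fin n →₀ ℕ} (ha : ∀ i, a i < b) (ha' : ∀ i, a' i < b)
    (h : wtm b a = wtm b a') : a = a' := by
  have h1 : finFunctionFinEquiv (fun i => (⟨a i, ha i⟩ : Fin b)) =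
      finFunctionFinEquiv (fun i => (⟨a' i, ha' i⟩ : Fin b)) := by
    apply Fin.ext
    rw [finFunctionFinEquiv_apply, finFunctionFinEquiv_apply]
    exact h
  have h2 := finFunctionFinEquiv.injective h1
  ext i
  have h3 := congrFun h2 i
  exact congrArg Fin.val h3

theorem eval_ne {n : ℕ} {b : ℕ} (G : MvPolynomial (Fin n) ℂ) (hG : G ≠ 0)
    (hb : ∀ a ∈ G.support, ∀ i, a i < b) : ∃ z0 : ℝ, 0 < z0 ∧ ∀ z : ℝ, 0 < z → z < z0 →
      ∀ y : Fin n → ℝ, (∀ i : Fin n, z ^ (b ^ (i : ℕ)) ≤ y i ∧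
        y i ≤ 16 * z ^ (b ^ (i : ℕ))) →
        MvPolynomial.eval (fun i => (y i : ℂ)) G ≠ 0 := by
  classical
  have hne : G.support.Nonempty := MvPolynomial.support_nonempty.2 hG
  obtain ⟨a0, ha0, hmin⟩ := G.support.exists_min_image (wtm b) hne
  obtain ⟨S, hS⟩ : ∃ S : ℝ, S = ∑ a ∈ G.support.erase a0, ‖G.coeff a‖ * 16 ^ (∑ i, a i) :=
    ⟨_, rfl⟩
  have hS0 : 0 ≤ S := by
    rw [hS]
    exact Finset.sum_nonneg fun a _ => by positivity
  have hc : 0 < ‖G.coeff a0‖ := norm_pos_iff.2 (MvPolynomial.mem_support_iff.1 ha0)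
  refine ⟨min 1 (‖G.coeff a0‖ / (S + 1)), lt_min one_pos (by positivity), ?_⟩
  intro z hz hz0 y hy
  have hz1 : z < 1 := hz0.trans_le (min_le_left _ _)
  have hz2 : z < ‖G.coeff a0‖ / (S + 1) := hz0.trans_le (min_le_right _ _)
  rw [lt_div_iff₀ (by linarith)] at hz2
  have hmon : ∀ a : Fin n →₀ ℕ, z ^ (wtm b a) ≤ ∏ i, y i ^ a i ∧
      ∏ i, y i ^ a i ≤ 16 ^ (∑ i, a i) * z ^ (wtm b a) := by
    intro a
    have e1 : z ^ (wtm b a) = ∏ i : Fin n, (z ^ (b ^ (i : ℕ))) ^ a i := by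
      unfold wtm
      rw [← Finset.prod_pow_eq_pow_sum]
      refine Finset.prod_congr rfl fun i _ => ?_
      rw [← pow_mul, mul_comm]
    have e2 : (16 : ℝ) ^ (∑ i, a i) * z ^ (wtm b a) =
        ∏ i : Fin n, (16 * z ^ (b ^ (i : ℕ))) ^ a i := by
      rw [e1, ← Finset.prod_pow_eq_pow_sum, ← Finset.prod_mul_distrib]
      refine Finset.prod_congr rfl fun i _ => ?_
      rw [mul_pow]
    rw [e2, e1]
    have hy0 : ∀ i, 0 ≤ y i := fun i => (pow_nonneg hz.le _).trans (hy i).1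
    refine ⟨Finset.prod_le_prod (fun i _ => by positivity) fun i _ => ?_,
      Finset.prod_le_prod (fun i _ => pow_nonneg (hy0 i) _) fun i _ => ?_⟩
    · exact pow_le_pow_left₀ (by positivity) (hy i).1 _
    · exact pow_le_pow_left₀ (hy0 i) (hy i).2 _
  intro h0
  rw [MvPolynomial.eval_eq', ← Finset.add_sum_erase _ _ ha0] at h0
  have h1 : ‖G.coeff a0 * ∏ i, (y i : ℂ) ^ a0 i‖ =
      ‖∑ a ∈ G.support.erase a0, G.coeff a * ∏ i, (y i : ℂ) ^ a i‖ := by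
    rw [eq_neg_of_add_eq_zero_left h0, norm_neg]
  have hy0 : ∀ i, 0 ≤ y i := fun i => (pow_nonneg hz.le _).trans (hy i).1
  have hnorm : ∀ a : Fin n →₀ ℕ, ‖∏ i, (y i : ℂ) ^ a i‖ = ∏ i, y i ^ a i := by
    intro a
    rw [norm_prod]
    refine Finset.prod_congr rfl fun i _ => ?_
    rw [norm_pow, Complex.norm_real, Real.norm_of_nonneg (hy0 i)]
  have h2 : ‖G.coeff a0‖ * z ^ (wtm b a0) ≤ ‖G.coeff a0 * ∏ i, (y i : ℂ) ^ a0 i‖ := by
    rw [norm_mul, hnorm]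
    exact mul_le_mul_of_nonneg_left (hmon a0).1 (norm_nonneg _)
  have h3 : ‖∑ a ∈ G.support.erase a0, G.coeff a * ∏ i, (y i : ℂ) ^ a i‖ ≤
      S * z ^ (wtm b a0 + 1) := by
    refine (norm_sum_le _ _).trans ?_
    rw [hS, Finset.sum_mul]
    refine Finset.sum_le_sum fun a ha => ?_
    rw [Finset.mem_erase] at ha
    rw [norm_mul, hnorm]
    have h4 : wtm b a0 + 1 ≤ wtm b a := by
      have h5 := hmin a ha.2
      have h6 : wtm b a0 ≠ wtm b a := fun h => ha.1 (wtm_inj (hb a ha.2) (hb a0 ha0) h.symm)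
      omega
    have h5 : z ^ (wtm b a) ≤ z ^ (wtm b a0 + 1) := pow_le_pow_of_le_one hz.le hz1.le h4
    calc ‖G.coeff a‖ * ∏ i, y i ^ a i ≤ ‖G.coeff a‖ * (16 ^ (∑ i, a i) * z ^ (wtm b a)) :=
          mul_le_mul_of_nonneg_left (hmon a).2 (norm_nonneg _)
      _ ≤ ‖G.coeff a‖ * (16 ^ (∑ i, a i) * z ^ (wtm b a0 + 1)) := by
          refine mul_le_mul_of_nonneg_left (mul_le_mul_of_nonneg_left h5 (by positivity))
            (norm_nonneg _)
      _ = _ := by ring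
  have h4 : ‖G.coeff a0‖ * z ^ (wtm b a0) ≤ S * z ^ (wtm b a0 + 1) := h2.trans (h1.le.trans h3)
  have h5 : 0 < z ^ (wtm b a0) := pow_pos hz _
  rw [pow_succ] at h4
  have h6 : ‖G.coeff a0‖ ≤ S * z := by
    have : ‖G.coeff a0‖ * z ^ (wtm b a0) ≤ (S * z) * z ^ (wtm b a0) := by
      refine h4.trans (le_of_eq ?_)
      ring
    exact le_of_mul_le_mul_right this h5
  nlinarith

end Pool.Agent.H431.MT
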