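import Pool.Agent.H431.MT.Descent
import Pool.Agent.H431.MT.Dense

/-!
# Heights and weights along the tower
-/

set_option autoImplicit false

namespace Pool.Agent.H431.MT

open NumberField IsDedekindDomain Height Pool.Agent.Q290.NF IntermediateField
open Pool.Agent.H431.OC

/-- the height of `4 κ / (1 + κ) ^ 2` -/
theorem ht_mu : ∃ C : ℝ, 0 ≤ C ∧ ∀ (M : Type) [Field M] [NumberField M] (κ : M), κ ≠ 0 → κ ≠ -1 →
    2 * logHeight₁ κ ≤ logHeight₁ (4 * κ / (1 + κ) ^ 2) + Module.finrank ℚ M * C := by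
  obtain ⟨C, hC, H⟩ := ht_jouk (k := ℚ) 1 one_ne_zero
  have hl : 0 ≤ Real.log 2 := Real.log_nonneg (by norm_num)
  refine ⟨C + 4 * Real.log 2, by positivity, fun M _ _ κ h0 h1 => ?_⟩
  have e1 := H M κ h0
  rw [map_one] at e1
  have n1 : 1 + κ ≠ 0 := fun h => h1 (by linear_combination h)
  have e2 : κ + 1 / κ = 4 / (4 * κ / (1 + κ) ^ 2) - 2 := by
    field_simp
    ring
  have e3 := ht_sub (4 / (4 * κ / (1 + κ) ^ 2)) (2 : M)
  have e4 := ht_div (4 : M) (4 * κ / (1 + κ) ^ 2)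
  have e5 : logHeight₁ (4 : M) = 2 * logHeight₁ (2 : M) := by
    have : (4 : M) = 2 ^ 2 := by norm_num
    rw [this, logHeight₁_pow]
    push_cast
    ring
  have e6 := height_two' M
  rw [e2] at e1
  rw [mul_add]
  linarith

/-- heights along the tower -/
theorem ht_chain {C : ℝ} (hC0 : 0 ≤ C) (hC : ∀ (M : Type) [Field M] [NumberField M] (κ : M),
    κ ≠ 0 → κ ≠ -1 →
    2 * logHeight₁ κ ≤ logHeight₁ (4 * κ / (1 + κ) ^ 2) + Module.finrank ℚ M * C)
    (M : Type) [Field M] [NumberField M] (κ : ℕ → M) (i : ℕ)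
    (hrel : ∀ j < i, κ (j + 1) ^ 2 = 4 * κ j / (1 + κ j) ^ 2) (h0 : ∀ j ≤ i, κ j ≠ 0)
    (h1 : ∀ j ≤ i, κ j ≠ -1) : ∀ j ≤ i,
      logHeight₁ (κ 0) ≤ logHeight₁ (κ j) + Module.finrank ℚ M * (j * C) := by
  intro j
  induction j with
  | zero =>
    intro _
    push_cast
    linarith
  | succ j ih =>
    intro hj
    have e1 := ih (by omega)
    have e2 := hC M (κ j) (h0 j (by omega)) (h1 j (by omega))
    rw [← hrel j (by omega), logHeight₁_pow] at e2
    have hd : (0 : ℝ) ≤ Module.finrank ℚ M := Nat.cast_nonneg _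
    have e3 : (0 : ℝ) ≤ Module.finrank ℚ M * C := mul_nonneg hd hC0
    push_cast at e2 ⊢
    nlinarith

theorem ht_chain' {C : ℝ} (hC0 : 0 ≤ C) (hC : ∀ (M : Type) [Field M] [NumberField M] (κ : M),
    κ ≠ 0 → κ ≠ -1 →
    2 * logHeight₁ κ ≤ logHeight₁ (4 * κ / (1 + κ) ^ 2) + Module.finrank ℚ M * C)
    (M : Type) [Field M] [NumberField M] (κ : ℕ → M) (i : ℕ)
    (hrel : ∀ j < i, κ (j + 1) ^ 2 = 4 * κ j / (1 + κ j) ^ 2) (h0 : ∀ j ≤ i, κ j ≠ 0)
    (h1 : ∀ j ≤ i, κ j ≠ -1) (j : ℕ) (hj : j ≤ i) :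
      2 * logHeight₁ (κ 0) ≤ logHeight₁ (4 * κ j / (1 + κ j) ^ 2) +
        Module.finrank ℚ M * ((2 * i + 1) * C) := by
  have e1 := ht_chain hC0 hC M κ i hrel h0 h1 j hj
  have e2 := hC M (κ j) (h0 j hj) (h1 j hj)
  have hd : (0 : ℝ) ≤ Module.finrank ℚ M := Nat.cast_nonneg _
  have e3 : (0 : ℝ) ≤ Module.finrank ℚ M * C := mul_nonneg hd hC0
  have e4 : (j : ℝ) ≤ i := by exact_mod_cast hj
  nlinarith

/-- weights along the tower -/
theorem w3_chain {M : Type} [Field M] [NumberField M] (κ : ℕ → M) (i : ℕ)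
    (hrel : ∀ j < i, κ (j + 1) ^ 2 = 4 * κ j / (1 + κ j) ^ 2) (h0 : ∀ j ≤ i, κ j ≠ 0)
    (h1 : ∀ j ≤ i, κ j ≠ 1) (h2 : ∀ j ≤ i, κ j ≠ -1) (v : HeightOneSpectrum (𝓞 M))
    (hv2 : ord v (2 : M) = 0) : ∀ l ≤ i,
      w3 (4 * κ (i - l) / (1 + κ (i - l)) ^ 2) v = w3 (κ i ^ 2) v := by
  intro l
  induction l with
  | zero =>
    intro _
    exact landen_w3 v hv2 (h0 i le_rfl) (h1 i le_rfl) (h2 i le_rfl)
  | succ l ih =>
    intro hl
    rw [← hrel (i - (l + 1)) (by omega)]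
    have e : i - (l + 1) + 1 = i - l := by omega
    rw [e, ← ih (by omega)]
    exact (landen_w3 v hv2 (h0 _ (by omega)) (h1 _ (by omega)) (h2 _ (by omega))).symm

/-- the weight at the bottom -/
theorem sm_bottom (K : Type) [Field K] [NumberField K] (m : ℕ) (hm : 1 ≤ m) :
    sm (w3 ((((1 : K) / 2) ^ m) ^ 2)) ≤ Module.finrank ℚ K * ((2 * m + 1) * Real.log 2) := by
  have two0 : (2 : K) ≠ 0 := two_ne_zero
  obtain ⟨N, hN⟩ : ∃ N : ℕ, N = 2 ^ (2 * m) - 1 := ⟨_, rfl⟩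
  have hp : 2 ^ 1 ≤ 2 ^ (2 * m) := Nat.pow_le_pow_right (by norm_num) (by omega)
  have hN1 : N + 1 = 2 ^ (2 * m) := by omega
  have hN0 : N ≠ 0 := by omega
  have hNK : ((N : ℕ) : K) = 2 ^ (2 * m) - 1 := by
    have : ((N + 1 : ℕ) : K) = 2 ^ (2 * m) := by
      rw [hN1]
      push_cast
      rfl
    push_cast at this
    linear_combination this
  have hNK0 : ((N : ℕ) : K) ≠ 0 := Nat.cast_ne_zero.2 hN0
  obtain ⟨t, ht⟩ : ∃ t : K, t = (((1 : K) / 2) ^ m) ^ 2 := ⟨_, rfl⟩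
  have ht' : t = 1 / 2 ^ (2 * m) := by
    rw [ht, ← pow_mul, one_div, inv_pow, one_div, mul_comm]
  have p0 : (2 : K) ^ (2 * m) ≠ 0 := pow_ne_zero _ two0
  have t0 : t ≠ 0 := by
    rw [ht']
    exact one_div_ne_zero p0
  have h1 := sm_le_bad (M := K) (N := 2) two_ne_zero zero_le_one (supp_w3 t)
    (supp_zeros ((N : ℕ) : K)) (fun v hv => by
      have hv2 : ord v (2 : K) = 0 := by exact_mod_cast hv
      have o1 : ord v t = 0 := by
        rw [ht', ord_div v one_ne_zero p0, ord_one, ord_pow, hv2]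
        ring
      have o2 : ord v (t - 1) = ord v ((N : ℕ) : K) := by
        have e : t - 1 = -(((N : ℕ) : K) / 2 ^ (2 * m)) := by
          rw [ht', hNK]
          field_simp
          ring
        rw [e, ord_neg, ord_div v hNK0 p0, ord_pow, hv2]
        ring
      unfold w3
      rw [o1, o2, po_nonpos (n := 0) le_rfl, po_nonpos (n := -0) (by simp), zero_add, add_zero]
      exact po_le_max _) (fun v => w3_le_one v t0) (fun v => le_max_left _ _)
  have h2 := (zeros_le (K := K) ((N : ℕ) : K)).trans (height_nat hN0)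
  have h3 : Real.log N ≤ 2 * m * Real.log 2 := by
    have : Real.log N ≤ Real.log ((2 : ℝ) ^ (2 * m)) := by
      refine Real.log_le_log (by exact_mod_cast Nat.pos_of_ne_zero hN0) ?_
      have : (N : ℝ) ≤ ((2 ^ (2 * m) : ℕ) : ℝ) := by exact_mod_cast (by omega : N ≤ 2 ^ (2 * m))
      exact_mod_cast this
    rw [Real.log_pow] at this
    push_cast at this
    exact this
  have hd : (0 : ℝ) ≤ Module.finrank ℚ K := Nat.cast_nonneg _
  have h4 := mul_le_mul_of_nonneg_left h3 hd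
  rw [← ht]
  have h5 : (Module.finrank ℚ K : ℝ) * (1 * Real.log (2 : ℕ)) =
    Module.finrank ℚ K * Real.log 2 := by
    push_cast
    ring
  rw [h5] at h1
  nlinarith

end Pool.Agent.H431.MT
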