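import Pool.Agent.H431.MT.Tower

/-!
# The sum of the truncated counting function and the discriminant in an extension
-/

set_option autoImplicit false

namespace Pool.Agent.H431.MT

open NumberField IsDedekindDomain Height Pool.Agent.Q290.NF IntermediateField
open Pool.Agent.H431.OC

variable {L M : Type} [Field L] [NumberField L] [Field M] [NumberField M] [Algebra L M]

/-- the primes above a prime -/
theorem over_set (v : HeightOneSpectrum (𝓞 L)) : ∃ W : Finset (HeightOneSpectrum (𝓞 M)),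
    (∀ w ∈ W, w.asIdeal.LiesOver v.asIdeal) ∧
    ∑ w ∈ W, (v.asIdeal.ramificationIdx' w.asIdeal : ℝ) * ell w =
      Module.finrank L M * ell v := by
  classical
  have hmax : v.asIdeal.IsMaximal := v.isMaximal
  have h1 := Ideal.sum_ramification_inertia (𝓞 M) L M (p := v.asIdeal) v.ne_bot
  have key : ∀ P ∈ IsDedekindDomain.primesOverFinset v.asIdeal (𝓞 M), P.IsPrime ∧ P.LiesOver v.asIdeal := by
    intro P hP
    exact (IsDedekindDomain.mem_primesOverFinset_iff v.ne_bot _).1 hP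
  have nb : ∀ P ∈ IsDedekindDomain.primesOverFinset v.asIdeal (𝓞 M), P ≠ ⊥ := by
    rintro P hP rfl
    have h2 := (key ⊥ hP).2
    have h3 : v.asIdeal = Ideal.comap (algebraMap (𝓞 L) (𝓞 M)) ⊥ := h2.over
    rw [Ideal.comap_bot_of_injective _ (FaithfulSMul.algebraMap_injective (𝓞 L) (𝓞 M))] at h3
    exact v.ne_bot h3
  obtain ⟨W, hW⟩ : ∃ W : Finset (HeightOneSpectrum (𝓞 M)), W =
    (IsDedekindDomain.primesOverFinset v.asIdeal (𝓞 M)).attach.image
      (fun P => (⟨P.1, (key P.1 P.2).1, nb P.1 P.2⟩ : HeightOneSpectrum (𝓞 M))) := ⟨_, rfl⟩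
  have hWl : ∀ w ∈ W, w.asIdeal.LiesOver v.asIdeal := by
    intro w hw
    rw [hW, Finset.mem_image] at hw
    obtain ⟨P, -, rfl⟩ := hw
    exact (key P.1 P.2).2
  refine ⟨W, hWl, ?_⟩
  have h2 : ∑ w ∈ W, (v.asIdeal.ramificationIdx' w.asIdeal : ℝ) * ell w =
      (∑ w ∈ W, (v.asIdeal.ramificationIdx' w.asIdeal : ℝ) *
        (v.asIdeal.inertiaDeg' w.asIdeal : ℝ)) * ell v := by
    rw [Finset.sum_mul]
    refine Finset.sum_congr rfl fun w hw => ?_
    rw [ell_above v w (hWl w hw)]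
    ring
  rw [h2, ← h1]
  congr 1
  rw [hW, Finset.sum_image]
  · push_cast
    exact Finset.sum_attach (IsDedekindDomain.primesOverFinset v.asIdeal (𝓞 M))
      (fun P => (v.asIdeal.ramificationIdx' P : ℝ) * (v.asIdeal.inertiaDeg' P : ℝ))
  · intro P _ Q _ hPQ
    apply Subtype.ext
    exact congrArg HeightOneSpectrum.asIdeal hPQ

/-- **The sum of the truncated counting function and the discriminant does not decrease.** -/
theorem descent (B : Finset (HeightOneSpectrum (𝓞 L))) (g : HeightOneSpectrum (𝓞 M) → ℝ)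
    (hg : (Function.support g).Finite) (hg0 : ∀ w, 0 ≤ g w)
    (h : ∀ v ∈ B, ∀ w : HeightOneSpectrum (𝓞 M), w.asIdeal.LiesOver v.asIdeal → 1 ≤ g w) :
    Module.finrank L M * (DD L + ∑ v ∈ B, ell v) ≤ DD M + sm g := by
  classical
  choose Wv hWv hsum using fun v : HeightOneSpectrum (𝓞 L) => over_set (M := M) v
  have hdisj : ∀ v1 v2 : HeightOneSpectrum (𝓞 L), ∀ w : HeightOneSpectrum (𝓞 M),
      w.asIdeal.LiesOver v1.asIdeal → w.asIdeal.LiesOver v2.asIdeal → v1 = v2 := by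
    intro v1 v2 w h1 h2
    apply HeightOneSpectrum.ext
    rw [h1.over, h2.over]
  obtain ⟨W, hW⟩ : ∃ W, W = B.biUnion Wv := ⟨_, rfl⟩
  have hWd : Set.PairwiseDisjoint (B : Set (HeightOneSpectrum (𝓞 L))) Wv := by
    intro v1 _ v2 _ hne
    rw [Function.onFun, Finset.disjoint_left]
    intro w h1 h2
    exact hne (hdisj v1 v2 w (hWv v1 w h1) (hWv v2 w h2))
  -- the ramification index
  obtain ⟨e, he⟩ : ∃ e : HeightOneSpectrum (𝓞 M) → ℕ, e = fun w =>
    (w.under (𝓞 L)).asIdeal.ramificationIdx' w.asIdeal := ⟨_, rfl⟩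
  have hev : ∀ v : HeightOneSpectrum (𝓞 L), ∀ w : HeightOneSpectrum (𝓞 M),
      w.asIdeal.LiesOver v.asIdeal → e w = v.asIdeal.ramificationIdx' w.asIdeal := by
    intro v w hl
    have h1 : w.under (𝓞 L) = v := by
      apply HeightOneSpectrum.ext
      rw [hl.over]
      rfl
    rw [he]
    show (w.under (𝓞 L)).asIdeal.ramificationIdx' w.asIdeal = _
    rw [h1]
  have hpow : ∀ w : HeightOneSpectrum (𝓞 M), w.asIdeal ^ (e w - 1) ∣
      differentIdeal (𝓞 L) (𝓞 M) := by
    intro w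
    have hmax : (w.under (𝓞 L)).asIdeal.IsMaximal := (w.under (𝓞 L)).isMaximal
    refine pow_sub_one_dvd_differentIdeal (𝓞 L) w.asIdeal (e w) (w.under (𝓞 L)).ne_bot ?_
    rw [Ideal.dvd_iff_le, he]
    exact Ideal.le_pow_ramificationIdx'
  have hprod : (∏ w ∈ W, w.asIdeal ^ (e w - 1)) ∣ differentIdeal (𝓞 L) (𝓞 M) := by
    refine Finset.prod_dvd_of_coprime ?_ fun w _ => hpow w
    intro w1 _ w2 _ hne
    rw [Function.onFun, Ideal.isCoprime_iff_sup_eq]
    have hm1 : w1.asIdeal.IsMaximal := w1.isMaximal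
    have hm2 : w2.asIdeal.IsMaximal := w2.isMaximal
    refine Ideal.pow_sup_pow_eq_top ?_
    rw [← Ideal.isCoprime_iff_sup_eq]
    exact Ideal.isCoprime_of_isMaximal fun h => hne (HeightOneSpectrum.ext h)
  have hdne : Ideal.absNorm (differentIdeal (𝓞 L) (𝓞 M)) ≠ 0 := by
    rw [Ne, Ideal.absNorm_eq_zero_iff]
    exact differentIdeal_ne_bot
  have hlog : ∑ w ∈ W, ((e w - 1 : ℕ) : ℝ) * ell w ≤
      Real.log ((Ideal.absNorm (differentIdeal (𝓞 L) (𝓞 M)) : ℕ) : ℝ) := by
    have h1 : Ideal.absNorm (∏ w ∈ W, w.asIdeal ^ (e w - 1)) ∣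
        Ideal.absNorm (differentIdeal (𝓞 L) (𝓞 M)) :=
      Ideal.absNorm_dvd_absNorm_of_le (Ideal.le_of_dvd hprod)
    have h2 : Real.log ((Ideal.absNorm (∏ w ∈ W, w.asIdeal ^ (e w - 1)) : ℕ) : ℝ) =
        ∑ w ∈ W, ((e w - 1 : ℕ) : ℝ) * ell w := by
      rw [map_prod, Nat.cast_prod, Real.log_prod]
      · refine Finset.sum_congr rfl fun w _ => ?_
        rw [map_pow, Nat.cast_pow, Real.log_pow]
        rfl
      · intro w _
        rw [map_pow, Nat.cast_pow]
        have : Ideal.absNorm w.asIdeal ≠ 0 := by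
          rw [Ne, Ideal.absNorm_eq_zero_iff]
          exact w.ne_bot
        exact pow_ne_zero _ (by exact_mod_cast this)
    rw [← h2]
    refine Real.log_le_log ?_ (by exact_mod_cast Nat.le_of_dvd (Nat.pos_of_ne_zero hdne) h1)
    have : Ideal.absNorm (∏ w ∈ W, w.asIdeal ^ (e w - 1)) ≠ 0 := fun h0 => by
      rw [h0] at h1
      exact hdne (Nat.eq_zero_of_zero_dvd h1)
    exact_mod_cast Nat.pos_of_ne_zero this
  have h1 := Pool.Agent.Y733.VR.log_discr L M
  have h2 : (Module.finrank L M : ℝ) * ∑ v ∈ B, ell v = ∑ w ∈ W, (e w : ℝ) * ell w := by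
    rw [hW, Finset.sum_biUnion hWd, Finset.mul_sum]
    refine Finset.sum_congr rfl fun v _ => ?_
    rw [← hsum v]
    refine Finset.sum_congr rfl fun w hw => ?_
    rw [hev v w (hWv v w hw)]
  have h3 : ∀ w ∈ W, (e w : ℝ) * ell w ≤ ((e w - 1 : ℕ) : ℝ) * ell w + g w * ell w := by
    intro w hw
    rw [hW, Finset.mem_biUnion] at hw
    obtain ⟨v, hv, hwv⟩ := hw
    have hl := hWv v w hwv
    have h4 := h v hv w hl
    have h5 : (e w : ℝ) ≤ ((e w - 1 : ℕ) : ℝ) + 1 := by
      have : e w ≤ (e w - 1) + 1 := by omega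
      exact_mod_cast this
    have h6 := ell_pos w
    nlinarith
  have h4 : ∑ w ∈ W, g w * ell w ≤ sm g := by
    unfold sm
    have h5 : ∑ w ∈ W, g w * ell w ≤
        ∑ w ∈ W ∪ (supp_mul hg).toFinset, g w * ell w := by
      refine Finset.sum_le_sum_of_subset_of_nonneg Finset.subset_union_left ?_
      intro w _ _
      exact mul_nonneg (hg0 w) (ell_pos w).le
    refine h5.trans (le_of_eq (finsum_eq_sum_of_support_subset _ ?_).symm)
    intro w hw
    rw [Finset.coe_union, Set.Finite.coe_toFinset]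
    exact Or.inr hw
  have h5 := Finset.sum_le_sum h3
  rw [Finset.sum_add_distrib] at h5
  unfold DD
  rw [mul_add, h2, h1]
  linarith

end Pool.Agent.H431.MT
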