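import Pool.Agent.H431.OC.Log4

/-!
# The Landen transformation: bad primes, heights, and the square root tower
-/

set_option autoImplicit false

namespace Pool.Agent.H431.MT

open NumberField IsDedekindDomain Height Pool.Agent.Q290.NF IntermediateField
open Pool.Agent.H431.OC

section loc

variable {M : Type} [Field M] [NumberField M]

/-- the bad primes of `x ^ 2` and `4 x / (1 + x) ^ 2` are the same, outside the primes above `2` -/
theorem landen_w3 (v : HeightOneSpectrum (𝓞 M)) (hv2 : ord v (2 : M) = 0) {x : M} (h0 : x ≠ 0)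
    (h1 : x ≠ 1) (h2 : x ≠ -1) : w3 (4 * x / (1 + x) ^ 2) v = w3 (x ^ 2) v := by
  have two0 : (2 : M) ≠ 0 := two_ne_zero
  have n1 : x - 1 ≠ 0 := sub_ne_zero.2 h1
  have n2 : x + 1 ≠ 0 := fun h => h2 (by linear_combination h)
  have n2' : 1 + x ≠ 0 := by rwa [add_comm]
  have hone : ord v (1 : M) = 0 := ord_one v
  have h4 : ord v (4 : M) = 0 := by
    have e : (4 : M) = 2 ^ 2 := by norm_num
    rw [e, ord_pow, hv2, mul_zero]
  have o1 : ord v (4 * x / (1 + x) ^ 2) = ord v x - 2 * ord v (x + 1) := by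
    rw [ord_div v (mul_ne_zero (by norm_num) h0) (pow_ne_zero 2 n2'), ord_mul v (by norm_num) h0,
      h4, zero_add, ord_pow, add_comm 1 x]
    rfl
  have o2 : ord v (4 * x / (1 + x) ^ 2 - 1) = 2 * ord v (x - 1) - 2 * ord v (x + 1) := by
    have e : 4 * x / (1 + x) ^ 2 - 1 = -((x - 1) ^ 2 / (x + 1) ^ 2) := by
      have : 1 + x = x + 1 := add_comm _ _
      rw [this]
      field_simp
      ring
    rw [e, ord_neg, ord_div v (pow_ne_zero 2 n1) (pow_ne_zero 2 n2), ord_pow, ord_pow]
    rfl
  have o3 : ord v (x ^ 2) = 2 * ord v x := by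
    rw [ord_pow]
    rfl
  have o4 : ord v (x ^ 2 - 1) = ord v (x - 1) + ord v (x + 1) := by
    have e : x ^ 2 - 1 = (x - 1) * (x + 1) := by ring
    rw [e, ord_mul v n1 n2]
  unfold w3
  rw [o1, o2, o3, o4]
  rcases lt_trichotomy (ord v x) 0 with ht | ht | ht
  · have a1 := (ord_sub_eq v (y := 1) h0 (Or.inr (by rw [hone]; exact ht))).1
    have a2 := (ord_add_eq v (y := 1) h0 (Or.inr (by rw [hone]; exact ht))).1
    rw [a1, a2, po_pos (n := ord v x - 2 * ord v x) (by omega),
      po_nonpos (n := 2 * ord v x - 2 * ord v x) (by omega),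
      po_nonpos (n := -(ord v x - 2 * ord v x)) (by omega),
      po_nonpos (n := 2 * ord v x) (by omega), po_nonpos (n := ord v x + ord v x) (by omega),
      po_pos (n := -(2 * ord v x)) (by omega)]
    ring
  · have g1 : 0 ≤ ord v (x - 1) := sub_nonneg' v ht.ge hone.ge
    have g2 : 0 ≤ ord v (x + 1) := add_nonneg' v ht.ge hone.ge
    rw [ht]
    rcases lt_or_ge 0 (ord v (x + 1)) with hc | hc
    · have hb : ord v (x - 1) = 0 := by
        have a1 := (ord_sub_eq v (x := 2) (y := x + 1) two0
          (Or.inr (by rw [hv2]; exact hc))).1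
        have e : (2 : M) - (x + 1) = 1 - x := by ring
        rw [e, hv2, ord_sub_comm] at a1
        exact a1
      rw [hb, po_nonpos (n := 0 - 2 * ord v (x + 1)) (by omega),
        po_nonpos (n := 2 * 0 - 2 * ord v (x + 1)) (by omega),
        po_pos (n := -(0 - 2 * ord v (x + 1))) (by omega), po_nonpos (n := 2 * 0) (by omega),
        po_pos (n := 0 + ord v (x + 1)) (by omega), po_nonpos (n := -(2 * 0)) (by omega)]
      ring
    · have hc0 : ord v (x + 1) = 0 := le_antisymm hc g2
      rw [hc0]
      rcases lt_or_ge 0 (ord v (x - 1)) with hb | hb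
      · rw [po_nonpos (n := 0 - 2 * 0) (by omega),
          po_pos (n := 2 * ord v (x - 1) - 2 * 0) (by omega),
          po_nonpos (n := -(0 - 2 * 0)) (by omega), po_nonpos (n := 2 * 0) (by omega),
          po_pos (n := ord v (x - 1) + 0) (by omega), po_nonpos (n := -(2 * 0)) (by omega)]
      · have hb0 : ord v (x - 1) = 0 := le_antisymm hb g1
        rw [hb0, po_nonpos (n := 0 - 2 * 0) (by omega),
          po_nonpos (n := 2 * 0 - 2 * 0) (by omega),
          po_nonpos (n := -(0 - 2 * 0)) (by omega), po_nonpos (n := 2 * 0) (by omega),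
          po_nonpos (n := 0 + 0) (by omega), po_nonpos (n := -(2 * 0)) (by omega)]
  · have a1 : ord v (x - 1) = 0 := by
      have := (ord_sub_eq v (x := 1) (y := x) one_ne_zero
        (Or.inr (by rw [hone]; exact ht))).1
      rw [ord_sub_comm, this, hone]
    have a2 : ord v (x + 1) = 0 := by
      have := (ord_add_eq v (x := 1) (y := x) one_ne_zero
        (Or.inr (by rw [hone]; exact ht))).1
      rw [add_comm, this, hone]
    rw [a1, a2, po_pos (n := ord v x - 2 * 0) (by omega),
      po_nonpos (n := 2 * 0 - 2 * 0) (by omega),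
      po_nonpos (n := -(ord v x - 2 * 0)) (by omega),
      po_pos (n := 2 * ord v x) (by omega), po_nonpos (n := 0 + 0) (by omega),
      po_nonpos (n := -(2 * ord v x)) (by omega)]

/-- the weight is an indicator -/
theorem w3_le_one (v : HeightOneSpectrum (𝓞 M)) {t : M} (h0 : t ≠ 0) : w3 t v ≤ 1 := by
  have hone : ord v (1 : M) = 0 := ord_one v
  unfold w3
  rcases lt_trichotomy (ord v t) 0 with ht | ht | ht
  · have a1 := (ord_sub_eq v (y := 1) h0 (Or.inr (by rw [hone]; exact ht))).1
    rw [a1, po_nonpos ht.le]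
    have := po_le (-ord v t)
    linarith
  · rw [ht, po_nonpos le_rfl, neg_zero, po_nonpos le_rfl]
    have := po_le (ord v (t - 1))
    linarith
  · have a1 : ord v (t - 1) = 0 := by
      have := (ord_sub_eq v (x := 1) (y := t) one_ne_zero
        (Or.inr (by rw [hone]; exact ht))).1
      rw [ord_sub_comm, this, hone]
    rw [a1, po_nonpos (n := 0) le_rfl, po_nonpos (n := -ord v t) (by omega)]
    have := po_le (ord v t)
    linarith

end loc

/-- the weight in an extension -/
theorem w3_ext {M E : Type} [Field M] [NumberField M] [Field E] [NumberField E] [Algebra M E]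
    (v : HeightOneSpectrum (𝓞 M)) (w : HeightOneSpectrum (𝓞 E)) {e : ℕ} (he : e ≠ 0)
    (h : ∀ z : M, ord w (algebraMap M E z) = e * ord v z) (t : M) :
    w3 (algebraMap M E t) w = w3 t v := by
  have he' : (0 : ℤ) < e := by exact_mod_cast Nat.pos_of_ne_zero he
  have key : ∀ n : ℤ, po (e * n) = po n := by
    intro n
    rcases lt_or_ge 0 n with h1 | h1
    · rw [po_pos h1, po_pos (mul_pos he' h1)]
    · rw [po_nonpos h1, po_nonpos (mul_nonpos_of_nonneg_of_nonpos he'.le h1)]
  have e1 : algebraMap M E t - 1 = algebraMap M E (t - 1) := by rw [map_sub, map_one]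
  unfold w3
  rw [e1, h, h, ← mul_neg, key, key, key]

/-- a square root in `ℂ` -/
theorem quad_emb (M : Type) [Field M] [NumberField M] (σ : M →+* ℂ) (a : M) (z : ℂ)
    (hz : z ^ 2 = σ a) :
    ∃ (E : Type) (_ : Field E) (_ : NumberField E) (_ : Algebra M E) (x : E) (τ : E →+* ℂ),
      x ^ 2 = algebraMap M E a ∧ Module.finrank M E ≤ 2 ∧ M⟮x⟯ = ⊤ ∧
      τ.comp (algebraMap M E) = σ ∧ τ x = z := by
  let _ : Algebra M ℂ := σ.toAlgebra
  obtain ⟨ix, fx⟩ := finrank_simple (l := 2) (by norm_num) z a hz
  let F := M⟮z⟯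
  have hF : Module.Finite M F := adjoin.finiteDimensional ix
  have nF : NumberField F := NumberField.of_module_finite M F
  refine ⟨F, inferInstance, nF, inferInstance, AdjoinSimple.gen M z, F.val.toRingHom, ?_, fx,
    gen_top ix, ?_, ?_⟩
  · apply (algebraMap F ℂ).injective
    rw [map_pow, AdjoinSimple.algebraMap_gen, hz, ← IsScalarTower.algebraMap_apply]
    rfl
  · ext y
    rfl
  · exact AdjoinSimple.algebraMap_gen M z

end Pool.Agent.H431.MT
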