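import Pool.Agent.H431.MT.Landen

/-!
# The tower of square roots
-/

set_option autoImplicit false

namespace Pool.Agent.H431.MT

open NumberField IsDedekindDomain Height Pool.Agent.Q290.NF IntermediateField
open Pool.Agent.H431.OC

/-- the real numbers of the Landen sequence -/
noncomputable def kap (x : ℝ) : ℕ → ℝ
  | 0 => x
  | i + 1 => 2 * √(kap x i) / (1 + kap x i)

theorem kap_zero (x : ℝ) : kap x 0 = x := rfl

theorem kap_succ (x : ℝ) (i : ℕ) : kap x (i + 1) = 2 * √(kap x i) / (1 + kap x i) := rfl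

theorem kap_pos {x : ℝ} (h0 : 0 < x) : ∀ i, 0 < kap x i
  | 0 => h0
  | i + 1 => by
    have h := kap_pos h0 i
    rw [kap_succ]
    have := Real.sqrt_pos.2 h
    positivity

theorem kap_lt {x : ℝ} (h0 : 0 < x) (h1 : x < 1) : ∀ i, kap x i < 1
  | 0 => h1
  | i + 1 => by
    have h := kap_pos h0 i
    have h2 := kap_lt h0 h1 i
    rw [kap_succ, div_lt_one (by linarith)]
    have h3 : √(kap x i) < 1 := by
      rw [Real.sqrt_lt' one_pos]
      linarith
    have h4 := Real.sq_sqrt h.le
    nlinarith

theorem kap_ge {x : ℝ} (h0 : 0 < x) (h1 : x < 1) : ∀ i, x ^ ((1 / 2 : ℝ) ^ i) ≤ kap x i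
  | 0 => by
    rw [pow_zero, Real.rpow_one]
    exact le_rfl
  | i + 1 => by
    have h := kap_pos h0 i
    have h2 := kap_lt h0 h1 i
    have h3 := kap_ge h0 h1 i
    have h4 : x ^ ((1 / 2 : ℝ) ^ (i + 1)) = √(x ^ ((1 / 2 : ℝ) ^ i)) := by
      rw [Real.sqrt_eq_rpow, ← Real.rpow_mul h0.le, pow_succ]
    rw [h4, kap_succ, le_div_iff₀ (by linarith)]
    have h5 : √(x ^ ((1 / 2 : ℝ) ^ i)) ≤ √(kap x i) := Real.sqrt_le_sqrt h3
    have h6 := Real.sqrt_nonneg (kap x i)
    have h7 := Real.sqrt_nonneg (x ^ ((1 / 2 : ℝ) ^ i))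
    nlinarith

theorem kap_le {x : ℝ} (h0 : 0 < x) (h1 : x < 1) : ∀ i, kap x i ≤ 4 * x ^ ((1 / 2 : ℝ) ^ i)
  | 0 => by
    rw [pow_zero, Real.rpow_one, kap_zero]
    linarith
  | i + 1 => by
    have h := kap_pos h0 i
    have h3 := kap_le h0 h1 i
    have h4 : x ^ ((1 / 2 : ℝ) ^ (i + 1)) = √(x ^ ((1 / 2 : ℝ) ^ i)) := by
      rw [Real.sqrt_eq_rpow, ← Real.rpow_mul h0.le, pow_succ]
    have h5 : √(kap x i) ≤ 2 * √(x ^ ((1 / 2 : ℝ) ^ i)) := by
      have : √(4 * x ^ ((1 / 2 : ℝ) ^ i)) = 2 * √(x ^ ((1 / 2 : ℝ) ^ i)) := by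
        rw [Real.sqrt_mul (by norm_num), show (4 : ℝ) = 2 ^ 2 by norm_num,
          Real.sqrt_sq (by norm_num)]
      rw [← this]
      exact Real.sqrt_le_sqrt h3
    rw [h4, kap_succ, div_le_iff₀ (by linarith)]
    have h6 := Real.sqrt_nonneg (x ^ ((1 / 2 : ℝ) ^ i))
    nlinarith

/-- **The tower.** -/
theorem tower (K : Type) [Field K] [NumberField K] (φ : K →+* ℂ) (x : K) (r : ℝ) (hr0 : 0 < r)
    (hr1 : r < 1) (hx : φ x = (r : ℂ)) : ∀ i : ℕ,
    ∃ (M : Type) (_ : Field M) (_ : NumberField M) (_ : Algebra K M) (σ : M →+* ℂ) (κ : ℕ → M),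
      σ.comp (algebraMap K M) = φ ∧ κ 0 = algebraMap K M x ∧
      (∀ j < i, κ (j + 1) ^ 2 = 4 * κ j / (1 + κ j) ^ 2) ∧
      (∀ j ≤ i, σ (κ j) = (kap r j : ℂ)) ∧ Module.finrank K M ≤ 2 ^ i ∧
      DD M + sm (w3 (κ i ^ 2)) ≤ Module.finrank K M * (DD K + sm (w3 (x ^ 2)) +
        Module.finrank ℚ K * (i * (6 * Real.log 2))) := by
  intro i
  induction i with
  | zero =>
    refine ⟨K, inferInstance, inferInstance, Algebra.id K, φ, fun _ => x, ?_, rfl, ?_, ?_, ?_, ?_⟩
    · ext y
      rfl
    · intro j hj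
      omega
    · intro j hj
      rw [Nat.le_zero.1 hj, hx]
      rfl
    · rw [pow_zero, Module.finrank_self]
    · rw [Module.finrank_self]
      push_cast
      linarith
  | succ i ih =>
    obtain ⟨M, f1, f2, f3, σ, κ, hσ, hκ0, hrel, hemb, hdeg, hdisc⟩ := ih
    obtain ⟨a, ha⟩ : ∃ a : M, a = κ i := ⟨_, rfl⟩
    have hσa : σ a = (kap r i : ℂ) := by rw [ha, hemb i le_rfl]
    have hkpos := kap_pos hr0 i
    have hklt := kap_lt hr0 hr1 i
    have inj := σ.injective
    have a0 : a ≠ 0 := by
      intro h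
      rw [h, map_zero] at hσa
      have : (kap r i) = 0 := by exact_mod_cast hσa.symm
      linarith
    have a1 : a ≠ 1 := by
      intro h
      rw [h, map_one] at hσa
      have : (kap r i) = 1 := by exact_mod_cast hσa.symm
      linarith
    have a2 : a ≠ -1 := by
      intro h
      rw [h, map_neg, map_one] at hσa
      have : (kap r i) = -1 := by exact_mod_cast hσa.symm
      linarith
    have n2 : 1 + a ≠ 0 := fun h => a2 (by linear_combination h)
    obtain ⟨E, g1, g2, g3, s, τ, hs, hE2, hadj, hτ, hτs⟩ := quad_emb M σ a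
      ((√(kap r i) : ℝ) : ℂ) (by
        rw [hσa]
        have := Real.sq_sqrt hkpos.le
        exact_mod_cast this)
    let _ : Algebra K E := ((algebraMap M E).comp (algebraMap K M)).toAlgebra
    have hst : IsScalarTower K M E := IsScalarTower.of_algebraMap_eq fun _ => rfl
    have injE := (algebraMap M E).injective
    have n2E : 1 + algebraMap M E a ≠ 0 := by
      rw [← map_one (algebraMap M E), ← map_add]
      exact (map_ne_zero _).2 n2
    obtain ⟨b, hb⟩ : ∃ b : E, b = 2 * s / (1 + algebraMap M E a) := ⟨_, rfl⟩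
    have hb2 : b ^ 2 = 4 * algebraMap M E a / (1 + algebraMap M E a) ^ 2 := by
      rw [hb, div_pow, mul_pow, hs]
      norm_num
    obtain ⟨κ', hκ'⟩ : ∃ κ' : ℕ → E, κ' = fun j => if j ≤ i then algebraMap M E (κ j) else b :=
      ⟨_, rfl⟩
    have hκ'1 : ∀ j ≤ i, κ' j = algebraMap M E (κ j) := by
      intro j hj
      rw [hκ']
      exact if_pos hj
    have hκ'2 : κ' (i + 1) = b := by
      rw [hκ']
      exact if_neg (by omega)
    have hfin : Module.finrank K E = Module.finrank K M * Module.finrank M E :=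
      (Module.finrank_mul_finrank K M E).symm
    refine ⟨E, g1, g2, inferInstance, τ, κ', ?_, ?_, ?_, ?_, ?_, ?_⟩
    · have : (algebraMap K E) = (algebraMap M E).comp (algebraMap K M) := rfl
      rw [this, ← RingHom.comp_assoc, hτ, hσ]
    · rw [hκ'1 0 (Nat.zero_le _), hκ0]
      rfl
    · intro j hj
      rcases Nat.lt_or_ge j i with hji | hji
      · rw [hκ'1 (j + 1) hji, hκ'1 j hji.le, ← map_pow, hrel j hji, map_div₀, map_mul, map_pow,
          map_add, map_one, map_ofNat]
      · have hji' : j = i := by omega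
        rw [hji', hκ'2, hκ'1 i le_rfl, hb2, ha]
    · intro j hj
      have hcomp : ∀ y : M, τ (algebraMap M E y) = σ y := fun y => by
        rw [← hτ]
        rfl
      rcases Nat.lt_or_ge j (i + 1) with hji | hji
      · rw [hκ'1 j (by omega), hcomp, hemb j (by omega)]
      · have hji' : j = i + 1 := by omega
        rw [hji', hκ'2, hb, map_div₀, map_mul, map_add, map_one, map_ofNat, hcomp, hσa, hτs,
          kap_succ]
        push_cast
        rfl
    · rw [hfin, pow_succ]
      exact Nat.mul_le_mul hdeg hE2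
    · -- the discriminant
      have hwa : ∀ v : HeightOneSpectrum (𝓞 M), 0 ≤ w3 (a ^ 2) v := fun v => w3_nonneg _ v
      have a20 : a ^ 2 ≠ 0 := pow_ne_zero 2 a0
      have h1 := quad_ineq (k := M) (F := E) s a a0 hs hadj (B := 1) zero_le_one
        (fun w => w3 (algebraMap M E (a ^ 2)) w) (fun v => w3 (a ^ 2) v) (supp_w3 _) (supp_w3 _)
        (fun w => w3_nonneg _ w) (fun w => w3_le_one w ((map_ne_zero _).2 a20)) hwa (by
          intro v w e he hv2 hvw
          rw [w3_ext v w he hvw]
          have he1 : (1 : ℝ) ≤ e := by exact_mod_cast Nat.one_le_iff_ne_zero.2 he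
          have h0 := hwa v
          refine ⟨fun _ => by nlinarith, fun ho _ => ?_⟩
          have h2 : 1 ≤ w3 (a ^ 2) v := by
            have r1 := po_nonneg (ord v (a ^ 2))
            have r2 := po_nonneg (ord v (a ^ 2 - 1))
            have r3 := po_nonneg (-ord v (a ^ 2))
            unfold w3
            rcases lt_trichotomy (ord v a) 0 with h | h | h
            · have : po (-ord v (a ^ 2)) = 1 := po_pos (by
                rw [ord_pow]
                push_cast
                omega)
              linarith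
            · rw [h] at ho
              exact absurd ho (by decide)
            · have : po (ord v (a ^ 2)) = 1 := po_pos (by
                rw [ord_pow]
                push_cast
                omega)
              linarith
          have h3 := w3_le_one v a20
          linarith)
      have b20 : b ^ 2 ≠ 0 := by
        rw [hb2]
        exact div_ne_zero (mul_ne_zero (by norm_num) ((map_ne_zero _).2 a0))
          (pow_ne_zero 2 n2E)
      have h2 : sm (w3 (b ^ 2)) ≤ sm (w3 (algebraMap M E (a ^ 2))) +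
          Module.finrank ℚ E * (1 * Real.log (2 : ℕ)) := by
        refine sm_le_bad two_ne_zero zero_le_one (supp_w3 _) (supp_w3 _) (fun v hv => ?_)
          (fun v => w3_le_one v b20) (fun v => w3_nonneg _ v)
        have hv2 : ord v (2 : E) = 0 := by exact_mod_cast hv
        have hne : ∀ c : M, a ≠ c → algebraMap M E a ≠ algebraMap M E c := fun c hc h =>
          hc (injE h)
        have l1 := landen_w3 v hv2 (x := algebraMap M E a) ((map_ne_zero _).2 a0)
          (by simpa using hne 1 a1) (by simpa using hne (-1) a2)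
        rw [hb2, l1, map_pow]
      rw [hκ'2, hfin]
      have hn : (0 : ℝ) < Module.finrank M E := by exact_mod_cast Module.finrank_pos
      have hdM : (Module.finrank ℚ M : ℝ) = Module.finrank ℚ K * Module.finrank K M := by
        exact_mod_cast (Module.finrank_mul_finrank ℚ K M).symm
      have hdE : (Module.finrank ℚ E : ℝ) = Module.finrank ℚ K * Module.finrank K M *
          Module.finrank M E := by
        rw [← hdM]
        exact_mod_cast (Module.finrank_mul_finrank ℚ M E).symm
      have hl : 0 ≤ Real.log 2 := Real.log_nonneg (by norm_num)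
      have h3 := mul_le_mul_of_nonneg_left hdisc hn.le
      have e4 : DD E = Real.log |(discr E : ℝ)| := rfl
      have e5 : DD M = Real.log |(discr M : ℝ)| := rfl
      rw [← e4, ← e5] at h1
      rw [← ha] at h3
      obtain ⟨X, hX⟩ : ∃ X : ℝ, X = sm (w3 (algebraMap M E (a ^ 2))) := ⟨_, rfl⟩
      obtain ⟨Y, hY⟩ : ∃ Y : ℝ, Y = sm (w3 (a ^ 2)) := ⟨_, rfl⟩
      have e6 : sm (fun w => w3 (algebraMap M E (a ^ 2)) w) = X := hX.symm
      have e7 : sm (fun v => w3 (a ^ 2) v) = Y := hY.symm
      rw [e6, e7, hdM] at h1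
      rw [← hX, hdE, Nat.cast_ofNat] at h2
      rw [← hY] at h3
      have h4 : 0 ≤ (Module.finrank ℚ K : ℝ) * Module.finrank K M * Module.finrank M E *
        Real.log 2 := by positivity
      push_cast
      nlinarith

end Pool.Agent.H431.MT
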